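import Pool.Agent.helper97.AS.Spec

/-!
# Project AS (MP_c8175e_co), row COU: counting by classes
-/

set_option autoImplicit false

namespace Pool.Agent.helper97.AS

open Pool.Agent.helper20.LB (Step F IsSq Same Bd co)

theorem COU_sq {f : ℤ → ℤ} {x y : ℤ} {s : ℤ × ℤ} (h : Sq (co f) x y s) : Sq f x y s := by
  obtain ⟨h1, h2, h3, h4⟩ := h
  refine ⟨h1, h2, h3, ?_⟩
  unfold F co at h4
  unfold F
  omega

theorem COU_symm {f : ℤ → ℤ} {s t : ℤ × ℤ} (h : Same f s t) : Same f t s := by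
  obtain ⟨h1, h2⟩ := h
  refine ⟨h1.symm, fun j hj hj' => ?_⟩
  have := h2 j (by omega) (by omega)
  exact this.symm

theorem COU_lvl {f : ℤ → ℤ} {x y t t' : ℤ} {s s' : ℤ × ℤ} (h : Cls f x y t s)
    (h' : Cls f x y t' s') (hs : Same f s s') : t = t' := by
  obtain ⟨⟨h1, _, _, _⟩, _, h5⟩ := h
  obtain ⟨_, _, h5'⟩ := h'
  obtain ⟨e1, e2⟩ := hs
  have := e2 s.2 (by omega) le_rfl
  rw [e1] at this
  rw [e1] at h5
  omega

theorem COU_lvl' {f : ℤ → ℤ} {x y t t' : ℤ} {s s' : ℤ × ℤ} (h : Cls (co f) x y t s)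
    (h' : Cls (co f) x y t' s') (hs : Same f s s') : t = t' := by
  obtain ⟨⟨h1, _, _, _⟩, _, h5⟩ := h
  obtain ⟨_, _, h5'⟩ := h'
  obtain ⟨e1, e2⟩ := hs
  have := e2 s.2 (by omega) le_rfl
  unfold co at h5 h5'
  rw [e1] at this
  rw [e1] at h5
  omega

theorem COU_no {f : ℤ → ℤ} {x y t t' : ℤ} {s s' : ℤ × ℤ} (h : Cls f x y t s)
    (h' : Cls (co f) x y t' s') : ¬ Same f s s' := by
  intro hs
  obtain ⟨⟨h1, _, _, _⟩, h4, _⟩ := h
  obtain ⟨_, h4', _⟩ := h'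
  obtain ⟨e1, e2⟩ := hs
  have := e2 1 (by omega) h1
  unfold co at h4'
  omega

theorem COU : COU_stmt := by
  intro f x y Kb Ka hb ha
  have hb' : ∀ t : ℕ, ∃ s, 1 ≤ t → t ≤ Kb → Cls f x y (t : ℤ) s := by
    intro t
    by_cases h : 1 ≤ t ∧ t ≤ Kb
    · obtain ⟨s, hs⟩ := hb t (by exact_mod_cast h.1) (by exact_mod_cast h.2)
      exact ⟨s, fun _ _ => hs⟩
    · exact ⟨(0, 0), fun h1 h2 => absurd ⟨h1, h2⟩ h⟩
  have ha' : ∀ t : ℕ, ∃ s, 1 ≤ t → t ≤ Ka → Cls (co f) x y (t : ℤ) s := by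
    intro t
    by_cases h : 1 ≤ t ∧ t ≤ Ka
    · obtain ⟨s, hs⟩ := ha t (by exact_mod_cast h.1) (by exact_mod_cast h.2)
      exact ⟨s, fun _ _ => hs⟩
    · exact ⟨(0, 0), fun h1 h2 => absurd ⟨h1, h2⟩ h⟩
  choose S hS using hb'
  choose R hR using ha'
  have same_refl : ∀ s : ℤ × ℤ, Same f s s := fun s => ⟨rfl, fun _ _ _ => rfl⟩
  refine ⟨(Finset.Icc 1 Kb).image S ∪ (Finset.Icc 1 Ka).image R, ?_, ?_, ?_⟩
  · intro s hs
    rcases Finset.mem_union.1 hs with h | h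
    · obtain ⟨t, ht, rfl⟩ := Finset.mem_image.1 h
      rw [Finset.mem_Icc] at ht
      exact (hS t ht.1 ht.2).1
    · obtain ⟨t, ht, rfl⟩ := Finset.mem_image.1 h
      rw [Finset.mem_Icc] at ht
      exact COU_sq (hR t ht.1 ht.2).1
  · intro s hs s' hs' hss
    rcases Finset.mem_union.1 hs with h | h <;> rcases Finset.mem_union.1 hs' with h' | h'
    · obtain ⟨t, ht, rfl⟩ := Finset.mem_image.1 h
      obtain ⟨t', ht', rfl⟩ := Finset.mem_image.1 h'
      rw [Finset.mem_Icc] at ht ht'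
      have := COU_lvl (hS t ht.1 ht.2) (hS t' ht'.1 ht'.2) hss
      have h2 : t = t' := by exact_mod_cast this
      rw [h2]
    · obtain ⟨t, ht, rfl⟩ := Finset.mem_image.1 h
      obtain ⟨t', ht', rfl⟩ := Finset.mem_image.1 h'
      rw [Finset.mem_Icc] at ht ht'
      exact absurd hss (COU_no (hS t ht.1 ht.2) (hR t' ht'.1 ht'.2))
    · obtain ⟨t, ht, rfl⟩ := Finset.mem_image.1 h
      obtain ⟨t', ht', rfl⟩ := Finset.mem_image.1 h'
      rw [Finset.mem_Icc] at ht ht'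
      exact absurd (COU_symm hss) (COU_no (hS t' ht'.1 ht'.2) (hR t ht.1 ht.2))
    · obtain ⟨t, ht, rfl⟩ := Finset.mem_image.1 h
      obtain ⟨t', ht', rfl⟩ := Finset.mem_image.1 h'
      rw [Finset.mem_Icc] at ht ht'
      have := COU_lvl' (hR t ht.1 ht.2) (hR t' ht'.1 ht'.2) hss
      have h2 : t = t' := by exact_mod_cast this
      rw [h2]
  · rw [Finset.card_union_of_disjoint, Finset.card_image_of_injOn, Finset.card_image_of_injOn,
      Nat.card_Icc, Nat.card_Icc]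
    · omega
    · intro t ht t' ht' h
      rw [Finset.mem_coe, Finset.mem_Icc] at ht ht'
      have h3 := hR t' ht'.1 ht'.2
      have := COU_lvl' (hR t ht.1 ht.2) h3 (by rw [h]; exact same_refl _)
      exact_mod_cast this
    · intro t ht t' ht' h
      rw [Finset.mem_coe, Finset.mem_Icc] at ht ht'
      have h3 := hS t' ht'.1 ht'.2
      have := COU_lvl (hS t ht.1 ht.2) h3 (by rw [h]; exact same_refl _)
      exact_mod_cast this
    · rw [Finset.disjoint_left]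
      intro s h h'
      obtain ⟨t, ht, rfl⟩ := Finset.mem_image.1 h
      obtain ⟨t', ht', h3⟩ := Finset.mem_image.1 h'
      rw [Finset.mem_Icc] at ht ht'
      refine COU_no (hS t ht.1 ht.2) (hR t' ht'.1 ht'.2) ?_
      rw [h3]
      exact same_refl _

end Pool.Agent.helper97.AS
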